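import Mathlib

namespace Pool.Agent.Results.MP_fff0e1_co.Tight

open Filter Topology Sum

/-- main vertices: a block in `ZMod (2k+1)` and a cell of an `M × M` grid -/
abbrev W (k M : ℕ) := ZMod (2 * k + 1) × Fin M × Fin M

/-- auxiliary vertices -/
abbrev Z (k M : ℕ) := (ZMod (2 * k + 1) × Fin k) ⊕ W k M ⊕ W k M

def In {k M : ℕ} : Z k M → W k M → Prop
  | inl (i, _), w => w.1 = i
  | inr (inl (i, a, a')), w => a ≠ a' ∧ w.1 = i ∧ w.2.1 = a
  | inr (inr (i, a, a')), w => a ≠ a' ∧ w.1 = i ∧ w.2.2 = a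

def Out {k M : ℕ} : Z k M → W k M → Prop
  | inl (i, s), w => w.1 = i + ((s.val + 1 : ℕ) : ZMod (2 * k + 1))
  | inr (inl (i, a, a')), w => a ≠ a' ∧ w.1 = i ∧ w.2.1 = a'
  | inr (inr (i, a, a')), w => a ≠ a' ∧ w.1 = i ∧ w.2.2 = a'

def Arc {k M : ℕ} : W k M ⊕ Z k M → W k M ⊕ Z k M → Prop
  | inl w, inr z => In z w
  | inr z, inl w => Out z w
  | _, _ => False

lemma disj {k M : ℕ} (z : Z k M) (w : W k M) (h : In z w) : ¬ Out z w := by
  rcases z with ⟨i, s⟩ | ⟨i, a, a'⟩ | ⟨i, a, a'⟩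
  · simp only [In, Out] at h ⊢
    intro h2
    rw [h] at h2
    have h3 : ((s.val + 1 : ℕ) : ZMod (2 * k + 1)) = 0 := by
      have := h2.symm
      rwa [add_eq_left] at this
    rw [ZMod.natCast_eq_zero_iff] at h3
    have := Nat.le_of_dvd (by omega) h3
    have := s.2
    omega
  · simp only [In, Out] at h ⊢
    rintro ⟨h1, -, h3⟩
    exact h1 (h.2.2.symm.trans h3)
  · simp only [In, Out] at h ⊢
    rintro ⟨h1, -, h3⟩
    exact h1 (h.2.2.symm.trans h3)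

lemma cover {k M : ℕ} (u v : W k M) (h : u ≠ v) :
    ∃ z : Z k M, (In z u ∧ Out z v) ∨ (In z v ∧ Out z u) := by
  obtain ⟨i, x, y⟩ := u
  obtain ⟨j, x', y'⟩ := v
  by_cases hij : i = j
  · subst hij
    by_cases hx : x = x'
    · subst hx
      have hy : y ≠ y' := fun e => h (by rw [e])
      exact ⟨inr (inr (i, y, y')), Or.inl ⟨⟨hy, rfl, rfl⟩, ⟨hy, rfl, rfl⟩⟩⟩
    · exact ⟨inr (inl (i, x, x')), Or.inl ⟨⟨hx, rfl, rfl⟩, ⟨hx, rfl, rfl⟩⟩⟩
  · set t := (j - i).val with ht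
    have t1 : t < 2 * k + 1 := ZMod.val_lt _
    have t0 : t ≠ 0 := fun e => hij (by
      have := (ZMod.val_eq_zero _).1 e
      exact (sub_eq_zero.1 this).symm)
    have tc : ((t : ℕ) : ZMod (2 * k + 1)) = j - i := ZMod.natCast_zmod_val _
    by_cases hk : t ≤ k
    · refine ⟨inl (i, ⟨t - 1, by omega⟩), Or.inl ⟨rfl, ?_⟩⟩
      show j = i + ((t - 1 + 1 : ℕ) : ZMod (2 * k + 1))
      rw [show t - 1 + 1 = t by omega, tc]; ring
    · refine ⟨inl (j, ⟨2 * k - t, by omega⟩), Or.inr ⟨rfl, ?_⟩⟩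
      show i = j + ((2 * k - t + 1 : ℕ) : ZMod (2 * k + 1))
      have e : ((2 * k - t + 1 : ℕ) : ZMod (2 * k + 1)) + (t : ℕ) = 0 := by
        rw [← Nat.cast_add, show 2 * k - t + 1 + t = 2 * k + 1 by omega]
        exact ZMod.natCast_self _
      rw [tc] at e
      linear_combination -e

lemma ncard_le {α β : Type} [Fintype β] (s : Set α) (g : β → α) (h : ∀ x ∈ s, ∃ b, g b = x) :
    s.ncard ≤ Fintype.card β := by
  have h1 : s ⊆ g '' Set.univ := fun x hx => by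
    obtain ⟨b, hb⟩ := h x hx
    exact ⟨b, trivial, hb⟩
  calc s.ncard ≤ (g '' Set.univ).ncard := Set.ncard_le_ncard h1 (Set.toFinite _)
    _ ≤ (Set.univ : Set β).ncard := Set.ncard_image_le (Set.toFinite _)
    _ = Fintype.card β := by rw [Set.ncard_univ, Nat.card_eq_fintype_card]

lemma degW {k M : ℕ} (w : W k M) :
    {x | Arc (inl w) x}.ncard ≤ k + 2 * M ∧ {x | Arc x (inl w)}.ncard ≤ k + 2 * M := by
  have hc : Fintype.card (Fin k ⊕ Fin M ⊕ Fin M) = k + 2 * M := by simp; ring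
  obtain ⟨b, x, y⟩ := w
  constructor
  · rw [← hc]
    refine ncard_le _ (Sum.elim (fun s => inr (inl (b, s)))
      (Sum.elim (fun a => inr (inr (inl (b, x, a)))) (fun a => inr (inr (inr (b, y, a)))))) ?_
    rintro (w | ⟨i, s⟩ | ⟨i, a, a'⟩ | ⟨i, a, a'⟩) hx
    · exact hx.elim
    · obtain rfl : b = i := hx
      exact ⟨inl s, rfl⟩
    · obtain ⟨-, rfl, rfl⟩ : a ≠ a' ∧ b = i ∧ x = a := hx
      exact ⟨inr (inl a'), rfl⟩
    · obtain ⟨-, rfl, rfl⟩ : a ≠ a' ∧ b = i ∧ y = a := hx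
      exact ⟨inr (inr a'), rfl⟩
  · rw [← hc]
    refine ncard_le _ (Sum.elim (fun s => inr (inl (b - ((s.val + 1 : ℕ) : ZMod (2 * k + 1)), s)))
      (Sum.elim (fun a => inr (inr (inl (b, a, x)))) (fun a => inr (inr (inr (b, a, y)))))) ?_
    rintro (w | ⟨i, s⟩ | ⟨i, a, a'⟩ | ⟨i, a, a'⟩) hx
    · exact hx.elim
    · obtain rfl : b = i + ((s.val + 1 : ℕ) : ZMod (2 * k + 1)) := hx
      exact ⟨inl s, by simp⟩
    · obtain ⟨-, rfl, rfl⟩ : a ≠ a' ∧ b = i ∧ x = a' := hx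
      exact ⟨inr (inl a), rfl⟩
    · obtain ⟨-, rfl, rfl⟩ : a ≠ a' ∧ b = i ∧ y = a' := hx
      exact ⟨inr (inr a), rfl⟩

lemma blk {k M : ℕ} (z : Z k M) :
    (∃ i, ∀ w, In z w → w.1 = i) ∧ ∃ i, ∀ w, Out z w → w.1 = i := by
  rcases z with ⟨i, s⟩ | ⟨i, a, a'⟩ | ⟨i, a, a'⟩
  · exact ⟨⟨_, fun w h => h⟩, ⟨_, fun w h => h⟩⟩
  · exact ⟨⟨_, fun w h => h.2.1⟩, ⟨_, fun w h => h.2.1⟩⟩
  · exact ⟨⟨_, fun w h => h.2.1⟩, ⟨_, fun w h => h.2.1⟩⟩

lemma degZ {k M : ℕ} (z : Z k M) :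
    {x | Arc (inr z) x}.ncard ≤ M * M ∧ {x | Arc x (inr z)}.ncard ≤ M * M := by
  have hc : Fintype.card (Fin M × Fin M) = M * M := by simp
  obtain ⟨⟨i, hi⟩, ⟨j, hj⟩⟩ := blk z
  constructor
  · rw [← hc]
    refine ncard_le _ (fun p => inl (j, p)) ?_
    rintro (⟨b, p⟩ | z') hx
    · obtain rfl : b = j := hj _ hx
      exact ⟨p, rfl⟩
    · exact hx.elim
  · rw [← hc]
    refine ncard_le _ (fun p => inl (i, p)) ?_
    rintro (⟨b, p⟩ | z') hx
    · obtain rfl : b = i := hi _ hx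
      exact ⟨p, rfl⟩
    · exact hx.elim

lemma eps : Tendsto (fun k : ℕ => (2 * ((Nat.sqrt k : ℝ) + 1)) / k) atTop (𝓝 0) := by
  have h1 : Tendsto (fun k : ℕ => 4 / Real.sqrt k) atTop (𝓝 0) :=
    tendsto_const_nhds.div_atTop (Real.tendsto_sqrt_atTop.comp tendsto_natCast_atTop_atTop)
  refine squeeze_zero' (Eventually.of_forall fun k => by positivity) ?_ h1
  filter_upwards [eventually_ge_atTop 1] with k hk
  have hk' : (1 : ℝ) ≤ k := by exact_mod_cast hk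
  have s1 : 1 ≤ Real.sqrt k := Real.one_le_sqrt.2 hk'
  have s2 : (Nat.sqrt k : ℝ) ≤ Real.sqrt k := Real.nat_sqrt_le_real_sqrt
  have s3 : Real.sqrt k * Real.sqrt k = k := Real.mul_self_sqrt (by linarith)
  rw [div_le_div_iff₀ (by linarith) (by linarith)]
  nlinarith

theorem result : ∃ ε : ℕ → ℝ, Tendsto ε atTop (𝓝 0) ∧ ∃ (C : ℝ) (k₀ : ℕ), ∀ k ≥ k₀,
    ∃ (V : Type) (_ : Fintype V) (A : V → V → Prop),
      (∀ u, ¬ A u u) ∧ (∀ u v, A u v → ¬ A v u) ∧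
      (∀ v, (({w | A v w}.ncard : ℕ) : ℝ) ≤ (1 + ε k) * k ∧
        (({w | A w v}.ncard : ℕ) : ℝ) ≤ (1 + ε k) * k) ∧
      ∀ (m : ℕ) (f : V → ℕ), (∀ v, f v ≤ m) →
        (∀ u v, A u v → 2 ≤ |(f u : ℤ) - f v|) →
        (∀ u w v, A u w → A w v → 1 ≤ |(f u : ℤ) - f v|) →
        2 * (k : ℝ) ^ 2 - C * k ≤ m := by
  refine ⟨_, eps, 0, 1, fun k hk => ?_⟩
  set M := Nat.sqrt k + 1 with hM
  have m1 : k < M * M := Nat.lt_succ_sqrt k
  have m2 : M * M ≤ k + 2 * M := by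
    have := Nat.sqrt_le k
    rw [hM]; nlinarith
  have hk' : (0 : ℝ) < k := by exact_mod_cast hk
  have e : (1 + (2 * ((Nat.sqrt k : ℝ) + 1)) / k) * k = ((k + 2 * M : ℕ) : ℝ) := by
    rw [hM]; push_cast; field_simp
  refine ⟨W k M ⊕ Z k M, inferInstance, Arc, ?_, ?_, ?_, ?_⟩
  · rintro (w | z) h <;> exact h.elim
  · rintro (w | z) (w' | z') h h'
    · exact h.elim
    · exact disj _ _ h h'
    · exact disj _ _ h' h
    · exact h.elim
  · rw [e]
    rintro (w | z)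
    · exact ⟨by exact_mod_cast (degW w).1, by exact_mod_cast (degW w).2⟩
    · exact ⟨by exact_mod_cast (degZ z).1.trans m2, by exact_mod_cast (degZ z).2.trans m2⟩
  · intro m f hf _ h2
    have inj : Function.Injective (fun w : W k M => (⟨f (inl w), Nat.lt_succ_of_le (hf _)⟩ : Fin (m + 1))) := by
      intro u v huv
      by_contra hne
      have e1 : f (inl u) = f (inl v) := congrArg Fin.val huv
      obtain ⟨z, h | h⟩ := cover u v hne
      · have := h2 (inl u) (inr z) (inl v) h.1 h.2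
        rw [e1] at this; simp at this
      · have := h2 (inl v) (inr z) (inl u) h.1 h.2
        rw [e1] at this; simp at this
    have hc := Fintype.card_le_of_injective _ inj
    simp only [Fintype.card_prod, ZMod.card, Fintype.card_fin] at hc
    have : 2 * k ^ 2 ≤ m := by nlinarith
    have : (2 * (k : ℝ) ^ 2) ≤ m := by exact_mod_cast this
    linarith

end Pool.Agent.Results.MP_fff0e1_co.Tight
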